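import Mathlib
import Pool.Agent.Helper292.ForceCH

open Set Cardinal Ordinal

set_option linter.all false

namespace Pool.Agent.Results.MP_d06690_lc.ConsistentlyYes

/-- Q1 in the words of the problem: a graph on `ω₂²` with chromatic number `ℵ₁`, all of whose
induced subgraphs on sets of order type `< ω₂²` are countably chromatic. -/
def Q1 : Prop :=
  ∃ G : SimpleGraph (Set.Iio ((Cardinal.aleph.{0} 2).ord ^ 2)),
    Nonempty (G.Coloring (Set.Iio (Cardinal.aleph.{0} 1).ord)) ∧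
    IsEmpty (G.Coloring ℕ) ∧
    ∀ S : Set (Set.Iio ((Cardinal.aleph.{0} 2).ord ^ 2)),
      (∃ γ : Ordinal.{0}, γ < (Cardinal.aleph.{0} 2).ord ^ 2 ∧
        ∃ f : S → Ordinal.{0},
          (∀ x y : S, x.1.1 < y.1.1 → f x < f y) ∧ ∀ x : S, f x < γ) →
      Nonempty ((G.induce S).Coloring ℕ)

/-- There is a graph with exactly `ℵ₂` vertices and chromatic number `ℵ₁`, all of whose induced
subgraphs with at most `ℵ₁` vertices are countably chromatic. -/
def Incompact : Prop :=
  ∃ (V : Type) (H : SimpleGraph V), Cardinal.mk V = Cardinal.aleph 2 ∧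
    Nonempty (H.Coloring (Set.Iio (Cardinal.aleph.{0} 1).ord)) ∧
    IsEmpty (H.Coloring ℕ) ∧
    ∀ X : Set V, Cardinal.mk X ≤ Cardinal.aleph 1 → Nonempty ((H.induce X).Coloring ℕ)

/-! ### cardinal arithmetic -/

theorem lt2 {c : Cardinal.{0}} : c < aleph 2 ↔ c ≤ aleph 1 := by
  have : (aleph 2 : Cardinal.{0}) = Order.succ (aleph 1) := by
    rw [← aleph_succ]; congr 1; norm_num
  rw [this, Order.lt_succ_iff]

section small

variable {T : Type} [LinearOrder T]

theorem Iic_small (hI : ∀ t : T, #(Iio t) ≤ aleph 1) (t : T) : #(Iic t) ≤ aleph 1 := by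
  have : Iic t = Iio t ∪ {t} := by ext x; simp [le_iff_lt_or_eq]
  rw [this]
  refine (mk_union_le _ _).trans ?_
  have h1 : #({t} : Set T) ≤ aleph 1 := by
    rw [mk_singleton]; exact one_le_aleph0.trans (aleph0_le_aleph 1)
  exact (add_le_add (hI t) h1).trans (add_eq_self (aleph0_le_aleph 1)).le

theorem bdd (hT : #T = aleph 2) (hI : ∀ t : T, #(Iio t) ≤ aleph 1) (X : Set T)
    (hX : #X ≤ aleph 1) : ∃ b, ∀ x ∈ X, x < b := by
  by_contra hc
  push Not at hc
  have h1 : (univ : Set T) ⊆ ⋃ x : X, Iic x.1 := by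
    intro b _
    obtain ⟨x, hx, hxb⟩ := hc b
    exact mem_iUnion.2 ⟨⟨x, hx⟩, hxb⟩
  have h2 : #T ≤ aleph 1 := by
    rw [← mk_univ]
    refine (mk_le_mk_of_subset h1).trans ?_
    refine (mk_iUnion_le_sum_mk).trans ?_
    refine (Cardinal.sum_le_sum (fun x : X => #(Iic x.1)) (fun _ => aleph 1)
      (fun x => Iic_small hI x.1)).trans ?_
    rw [Cardinal.sum_const']
    exact (mul_le_mul' hX le_rfl).trans (mul_eq_self (aleph0_le_aleph 1)).le
  rw [hT] at h2
  exact absurd (lt2.2 h2) (lt_irrefl _)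

theorem countable_small {X : Type} [Countable X] : #X ≤ aleph 1 :=
  (mk_le_aleph0).trans (aleph0_le_aleph 1)

end small

/-- strictly bounded injections into the ordinals below `ω₂` -/
theorem inj_small {X : Type} (g : X → Ordinal.{0}) (hg : Function.Injective g) (r : Ordinal.{0})
    (hr : r < (aleph.{0} 2).ord) (h : ∀ x, g x < r) : #X ≤ aleph 1 := by
  have h1 : #X ≤ #(r.ToType) := by
    refine mk_le_of_injective (f := fun x => Ordinal.ToType.mk ⟨g x, h x⟩) ?_
    intro x y hxy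
    have := (Ordinal.ToType.mk (o := r)).injective hxy
    exact hg (Subtype.ext_iff.1 this)
  rw [mk_toType] at h1
  exact lt2.1 (h1.trans_lt (lt_ord.1 hr))

/-! ### the product construction -/

section product

variable {T : Type} [LinearOrder T] [WellFoundedLT T]

/-- the graph on `T × T` made from the graph `G1` on `T` -/
def E (G1 : SimpleGraph T) (p q : T × T) : Prop :=
  p.1 < q.1 ∧ q.1 < p.2 ∧ p.2 < q.2 ∧ G1.Adj p.1 q.1

theorem no_countable (hT : #T = aleph 2) (hI : ∀ t : T, #(Iio t) ≤ aleph 1) (G1 : SimpleGraph T)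
    (hG : ∀ c : T → ℕ, ∃ x y, G1.Adj x y ∧ c x = c y) (c : T × T → ℕ) :
    ∃ p q, E G1 p q ∧ c p = c q := by
  have h1 : ∀ a : T, ∃ n, ∀ t, ∃ b, t < b ∧ c (a, b) = n := by
    intro a
    by_contra hc
    push Not at hc
    choose t ht using hc
    haveI : Countable (range t) := (countable_range t).to_subtype
    obtain ⟨b, hb⟩ := bdd hT hI (range t) countable_small
    exact ht (c (a, b)) b (hb _ ⟨_, rfl⟩) rfl
  choose n hn using h1
  obtain ⟨x, y, hxy, hc⟩ := hG n
  have key : ∀ x y, G1.Adj x y → n x = n y → x < y → ∃ p q, E G1 p q ∧ c p = c q := by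
    intro x y hxy hc hlt
    obtain ⟨b, hb, hb'⟩ := hn x y
    obtain ⟨b2, hb2, hb2'⟩ := hn y b
    exact ⟨(x, b), (y, b2), ⟨hlt, hb, hb2, hxy⟩, by rw [hb', hb2', hc]⟩
  rcases lt_or_gt_of_ne hxy.ne with h | h
  · exact key x y hxy hc h
  · exact key y x hxy.symm hc.symm h

theorem small_type (hT : #T = aleph 2) (hI : ∀ t : T, #(Iio t) ≤ aleph 1) (G1 : SimpleGraph T)
    (hsm : ∀ X : Set T, #X ≤ aleph 1 → ∃ c : T → ℕ, ∀ x ∈ X, ∀ y ∈ X, G1.Adj x y → c x ≠ c y)
    (S : Set (T × T)) (f : T × T → Ordinal.{0}) (γ : Ordinal.{0})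
    (hγ : γ < (aleph.{0} 2).ord * (aleph.{0} 2).ord)
    (hf : ∀ p ∈ S, ∀ q ∈ S, (p.1 < q.1 ∨ (p.1 = q.1 ∧ p.2 < q.2)) → f p < f q)
    (hfγ : ∀ p ∈ S, f p < γ) :
    ∃ c : T × T → ℕ, ∀ p ∈ S, ∀ q ∈ S, E G1 p q → c p ≠ c q := by
  classical
  set κ : Ordinal.{0} := (aleph.{0} 2).ord with hκ
  have hκ0 : 0 < κ := by
    rw [hκ, Cardinal.lt_ord]; simpa using aleph_pos 2
  -- columns with many points
  let A : Set T := {a | ¬ #{b | (a, b) ∈ S} ≤ aleph 1}
  have hA : #A ≤ aleph 1 := by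
    have hne : ∀ a : A, ∃ b, (a.1, b) ∈ S := by
      rintro ⟨a, ha⟩
      by_contra hc
      push Not at hc
      apply ha
      have : {b | (a, b) ∈ S} = ∅ := by ext b; simpa using hc b
      simp only [this]
      simp
    let qs : A → Set Ordinal.{0} := fun a => {o | ∃ b, (a.1, b) ∈ S ∧ o = f (a.1, b) / κ}
    have hqne : ∀ a, (qs a).Nonempty := fun a => by
      obtain ⟨b, hb⟩ := hne a
      exact ⟨_, b, hb, rfl⟩
    let q : A → Ordinal.{0} := fun a => sInf (qs a)
    have hq : ∀ a, q a ∈ qs a := fun a => csInf_mem (hqne a)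
    have hql : ∀ a b, (a.1, b) ∈ S → q a ≤ f (a.1, b) / κ := fun a b hb => csInf_le' ⟨b, hb, rfl⟩
    have hmono : ∀ a a' : A, a < a' → q a < q a' := by
      intro a a' haa
      by_contra hc
      push Not at hc
      obtain ⟨b', hb', hqb⟩ := hq a'
      have hr : f (a'.1, b') % κ < κ := Ordinal.mod_lt _ hκ0.ne'
      have hdec : f (a'.1, b') = κ * q a' + f (a'.1, b') % κ := by
        rw [hqb]; exact (Ordinal.div_add_mod _ _).symm
      apply a.2
      refine inj_small (X := {b | (a.1, b) ∈ S}) (fun b => f (a.1, b.1) - κ * q a') ?_ _ hr ?_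
      · rintro ⟨b, hb⟩ ⟨d, hd⟩ hbd
        simp only at hbd
        have h1 : ∀ b, (a.1, b) ∈ S → κ * q a' ≤ f (a.1, b) := by
          intro b hb
          refine (mul_le_mul_right hc κ).trans ?_
          refine (mul_le_mul_right (hql a b hb) κ).trans ?_
          exact Ordinal.mul_div_le _ _
        have h2 : f (a.1, b) = f (a.1, d) := by
          rw [← Ordinal.add_sub_cancel_of_le (h1 b hb), ← Ordinal.add_sub_cancel_of_le (h1 d hd), hbd]
        rcases lt_trichotomy b d with h | h | h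
        · exact absurd h2 (hf (a.1, b) hb (a.1, d) hd (Or.inr ⟨rfl, h⟩)).ne
        · exact Subtype.ext h
        · exact absurd h2 (hf (a.1, d) hd (a.1, b) hb (Or.inr ⟨rfl, h⟩)).ne'
      · rintro ⟨b, hb⟩
        simp only
        have h3 : f (a.1, b) < f (a'.1, b') := hf _ hb _ hb' (Or.inl haa)
        rw [hdec] at h3
        have h1 : κ * q a' ≤ f (a.1, b) := by
          refine (mul_le_mul_right hc κ).trans ?_
          refine (mul_le_mul_right (hql a b hb) κ).trans ?_
          exact Ordinal.mul_div_le _ _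
        rwa [Ordinal.sub_lt_of_le h1]
    have hinj : Function.Injective q := by
      intro a a' h
      rcases lt_trichotomy a a' with h' | h' | h'
      · exact absurd h (hmono _ _ h').ne
      · exact h'
      · exact absurd h (hmono _ _ h').ne'
    have hδ : γ / κ < κ := Ordinal.div_lt hκ0.ne' |>.2 hγ
    have hlim : Order.IsSuccLimit κ := isSuccLimit_ord (aleph0_le_aleph 2)
    refine inj_small q hinj (Order.succ (γ / κ)) (hlim.succ_lt hδ) ?_
    intro a
    rw [Order.lt_succ_iff]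
    obtain ⟨b, hb, hqb⟩ := hq a
    rw [hqb]
    exact Ordinal.div_le_left (hfγ _ hb).le κ
  obtain ⟨cA, hcA⟩ := hsm A hA
  choose ct hct using fun t : T => hsm (Iio t) (hI t)
  -- a bound for the small columns
  have hh : ∀ a : T, ∃ b, a ∉ A → ∀ x, (a, x) ∈ S → x < b := by
    intro a
    by_cases ha : a ∈ A
    · exact ⟨a, fun h => absurd ha h⟩
    · have : #{b | (a, b) ∈ S} ≤ aleph 1 := not_not.1 ha
      obtain ⟨b, hb⟩ := bdd hT hI _ this
      exact ⟨b, fun _ x hx => hb x hx⟩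
  choose h hh using hh
  have hB : ∀ c : T, ∃ d, c < d ∧ ∀ a, a < c → h a < d := by
    intro c
    have h1 : #(insert c (h '' Iio c) : Set T) ≤ aleph 1 := by
      refine (mk_insert_le).trans ?_
      refine (add_le_add ((mk_image_le).trans (hI c))
        (one_le_aleph0.trans (aleph0_le_aleph 1))).trans ?_
      exact (add_eq_self (aleph0_le_aleph 1)).le
    obtain ⟨d, hd⟩ := bdd hT hI _ h1
    exact ⟨d, hd c (mem_insert _ _), fun a ha => hd _ (mem_insert_of_mem _ ⟨a, ha, rfl⟩)⟩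
  choose B hB1 hB2 using hB
  -- closure points
  have hC : ∀ a : T, ∃ c, a < c ∧ ∀ x, x < c → h x ≤ c := by
    intro a
    let s : ℕ → T := fun n => Nat.rec (B a) (fun _ x => B x) n
    haveI : Countable (range s) := (countable_range s).to_subtype
    obtain ⟨b0, hb0⟩ := bdd hT hI (range s) countable_small
    have hne : {b | ∀ n, s n ≤ b}.Nonempty := ⟨b0, fun n => (hb0 _ ⟨n, rfl⟩).le⟩
    obtain ⟨c, hc, hcmin⟩ := (wellFounded_lt (α := T)).has_min _ hne
    refine ⟨c, (hB1 a).trans_le (hc 0), fun x hx => ?_⟩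
    have h2 : ∃ n, x < s n := by
      by_contra hcon
      push Not at hcon
      exact hcmin x hcon hx
    obtain ⟨n, hn⟩ := h2
    exact (hB2 (s n) x hn).le.trans (hc (n + 1))
  have hcl : ∀ a : T, ∃ c, (a < c ∧ ∀ x, x < c → h x ≤ c) ∧
      ∀ c', (a < c' ∧ ∀ x, x < c' → h x ≤ c') → c ≤ c' := by
    intro a
    obtain ⟨c, hc, hcmin⟩ := (wellFounded_lt (α := T)).has_min
      {c | a < c ∧ ∀ x, x < c → h x ≤ c} (hC a)
    exact ⟨c, hc, fun c' hc' => not_lt.1 (hcmin c' hc')⟩
  choose cl hcl hclmin using hcl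
  refine ⟨fun p => if p.1 ∈ A then 2 * cA p.1 else 2 * ct (cl p.1) p.1 + 1, ?_⟩
  rintro ⟨a, b⟩ hp ⟨a', b'⟩ hq ⟨h1, h2, h3, h4⟩
  simp only at h1 h2 h3 h4 ⊢
  by_cases ha : a ∈ A <;> by_cases ha' : a' ∈ A <;> simp only [ha, ha', if_true, if_false]
  · have := hcA a ha a' ha' h4
    omega
  · omega
  · omega
  · have h5 : a' < cl a := (h2.trans (hh a ha b hp)).trans_le ((hcl a).2 a (hcl a).1)
    have h6 : cl a' = cl a := le_antisymm (hclmin a' _ ⟨h5, (hcl a).2⟩)
      (hclmin a _ ⟨h1.trans (hcl a').1, (hcl a').2⟩)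
    rw [h6]
    have := hct (cl a) a (hcl a).1 a' h5 h4
    omega

end product

/-! ### the shift graph -/

section shift

variable {T : Type} [LinearOrder T]

def Sh (T : Type) [LinearOrder T] : SimpleGraph (T × T) where
  Adj p q := (p.1 < p.2 ∧ p.2 = q.1 ∧ q.1 < q.2) ∨ (q.1 < q.2 ∧ q.2 = p.1 ∧ p.1 < p.2)
  symm := ⟨fun p q h => h.symm⟩
  loopless := ⟨fun p h => by
    rcases h with ⟨h1, h2, h3⟩ | ⟨h1, h2, h3⟩
    · exact absurd h2 h1.ne'
    · exact absurd h2 h1.ne'⟩

theorem shift_col {C J : Type} (X : Set T) (r : T → Set J) (hr : Set.InjOn r X)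
    (j : J × Bool ↪ C) (j0 : J) :
    ∃ c : T × T → C, ∀ p q, p.1 ∈ X → p.2 ∈ X → q.1 ∈ X → q.2 ∈ X → (Sh T).Adj p q →
      c p ≠ c q := by
  classical
  have h1 : ∀ p : T × T, ∃ i : J, p.1 ∈ X → p.2 ∈ X → p.1 < p.2 → ¬ (i ∈ r p.1 ↔ i ∈ r p.2) := by
    intro p
    by_cases h : p.1 ∈ X ∧ p.2 ∈ X ∧ p.1 < p.2
    · obtain ⟨h1, h2, h3⟩ := h
      have : r p.1 ≠ r p.2 := fun he => h3.ne (hr h1 h2 he)
      have : ∃ i, ¬ (i ∈ r p.1 ↔ i ∈ r p.2) := by
        by_contra hc
        push Not at hc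
        exact this (Set.ext hc)
      obtain ⟨i, hi⟩ := this
      exact ⟨i, fun _ _ _ => hi⟩
    · exact ⟨j0, fun h1 h2 h3 => absurd ⟨h1, h2, h3⟩ h⟩
  choose i hi using h1
  refine ⟨fun p => j (i p, decide (i p ∈ r p.1)), ?_⟩
  have key : ∀ p q : T × T, p.1 ∈ X → p.2 ∈ X → q.1 ∈ X → q.2 ∈ X →
      (p.1 < p.2 ∧ p.2 = q.1 ∧ q.1 < q.2) →
      (i p, decide (i p ∈ r p.1)) ≠ (i q, decide (i q ∈ r q.1)) := by
    rintro ⟨x, y⟩ ⟨y', z⟩ hx hy hy' hz ⟨h1, h2, h3⟩ he
    simp only at h2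
    subst h2
    have e1 := congrArg Prod.fst he
    have e2 := congrArg Prod.snd he
    simp only at e1 e2
    have h4 := hi (x, y) hx hy h1
    simp only at h4
    rw [← e1] at e2
    have e3 : i (x, y) ∈ r x ↔ i (x, y) ∈ r y := by simpa using e2
    exact h4 e3
  intro p q h1 h2 h3 h4 h hc
  have hc' := j.injective hc
  rcases h with h | h
  · exact key p q h1 h2 h3 h4 h hc'
  · exact key q p h3 h4 h1 h2 h hc'.symm

theorem shift_not (hT : ¬ #T ≤ continuum) (c : T × T → ℕ) :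
    ∃ p q, (Sh T).Adj p q ∧ c p = c q := by
  by_contra hc
  push Not at hc
  apply hT
  let r : T → Set ℕ := fun y => {n | ∃ x, x < y ∧ c (x, y) = n}
  have key : ∀ y z, y < z → r y ≠ r z := by
    intro y z hyz he
    have h1 : c (y, z) ∈ r z := ⟨y, hyz, rfl⟩
    rw [← he] at h1
    obtain ⟨x, hx, hxc⟩ := h1
    exact hc (x, y) (y, z) (Or.inl ⟨hx, rfl, hyz⟩) hxc
  have hinj : Function.Injective r := by
    intro y z h
    rcases lt_trichotomy y z with h' | h' | h'
    · exact absurd h (key _ _ h')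
    · exact h'
    · exact absurd h.symm (key _ _ h')
  have := mk_le_of_injective hinj
  rwa [mk_set, mk_nat, two_power_aleph0] at this

end shift

theorem ch_incompact (hCH : aleph 1 = continuum.{0}) : Incompact := by
  classical
  let T : Type := (aleph.{0} 2).ord.ToType
  let I : Type := (aleph.{0} 1).ord.ToType
  have hT : #T = aleph 2 := by simp [T]
  have hI : #I = aleph 1 := by simp [I]
  have h0 : #(I × Bool) ≤ #I := by
    rw [mk_prod]
    simp only [Cardinal.lift_id]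
    rw [hI]
    refine (mul_le_mul' le_rfl (mk_le_aleph0.trans (aleph0_le_aleph 1))).trans ?_
    exact (mul_eq_self (aleph0_le_aleph 1)).le
  have hIne : Nonempty I := by
    rw [← mk_ne_zero_iff, hI]; exact (aleph_pos 1).ne'
  obtain ⟨i0⟩ := hIne
  refine ⟨T × T, Sh T, ?_, ?_, ?_, ?_⟩
  · rw [mk_prod]
    simp only [Cardinal.lift_id]
    rw [hT]; exact mul_eq_self (aleph0_le_aleph 2)
  · have h1 : #T ≤ #(Set I) := by
      rw [mk_set, hT, hI]
      have : (aleph 2 : Cardinal.{0}) = Order.succ (aleph 1) := by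
        rw [← aleph_succ]; congr 1; norm_num
      rw [this]
      exact Order.succ_le_of_lt (cantor _)
    obtain ⟨r⟩ := h1
    obtain ⟨j⟩ := h0
    obtain ⟨c, hc⟩ := shift_col (T := T) univ r (r.injective.injOn) j i0
    refine ⟨SimpleGraph.Coloring.mk (fun p => (Ordinal.ToType.mk (o := (aleph.{0} 1).ord)).symm (c p))
      ?_⟩
    intro p q hpq he
    exact hc p q (mem_univ _) (mem_univ _) (mem_univ _) (mem_univ _) hpq
      ((Ordinal.ToType.mk (o := (aleph.{0} 1).ord)).symm.injective he)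
  · refine ⟨fun c => ?_⟩
    have h2 : ¬ #T ≤ continuum := by
      rw [← hCH, hT]
      intro h
      exact absurd (lt2.2 h) (lt_irrefl _)
    obtain ⟨p, q, hpq, he⟩ := shift_not h2 c
    exact c.valid hpq he
  · intro X hX
    let Y : Set T := Prod.fst '' X ∪ Prod.snd '' X
    have hY : #Y ≤ #(Set ℕ) := by
      rw [mk_set, mk_nat, two_power_aleph0, ← hCH]
      refine (mk_union_le _ _).trans ?_
      refine (add_le_add (mk_image_le.trans hX) (mk_image_le.trans hX)).trans ?_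
      exact (add_eq_self (aleph0_le_aleph 1)).le
    obtain ⟨r⟩ := hY
    let r' : T → Set ℕ := fun t => if h : t ∈ Y then r ⟨t, h⟩ else ∅
    have hr' : Set.InjOn r' Y := by
      intro x hx y hy h
      simp only [r', hx, hy, dif_pos] at h
      exact Subtype.ext_iff.1 (r.injective h)
    have hj : Nonempty (ℕ × Bool ↪ ℕ) := by
      exact ⟨⟨fun p => 2 * p.1 + (if p.2 then 1 else 0), by
        rintro ⟨a, b⟩ ⟨c, d⟩ h
        cases b <;> cases d <;> simp at h ⊢ <;> omega⟩⟩
    obtain ⟨j⟩ := hj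
    obtain ⟨c, hc⟩ := shift_col (T := T) Y r' hr' j 0
    refine ⟨SimpleGraph.Coloring.mk (fun p => c p.1) ?_⟩
    rintro ⟨p, hp⟩ ⟨q, hq⟩ hpq
    exact hc p q (Or.inl ⟨p, hp, rfl⟩) (Or.inr ⟨p, hp, rfl⟩) (Or.inl ⟨q, hq, rfl⟩)
      (Or.inr ⟨q, hq, rfl⟩) hpq

/-! ### transport -/

theorem equivalence : Q1 ↔ Incompact := by
  classical
  let T : Type := (aleph.{0} 2).ord.ToType
  have hT : #T = aleph 2 := by simp [T]
  have hI : ∀ t : T, #(Iio t) ≤ aleph 1 := by
    intro t
    rw [← lt2]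
    exact mk_Iio_ord_toType t
  set κ : Ordinal.{0} := (aleph.{0} 2).ord with hκ
  have hty : Ordinal.type (Prod.Lex (· < ·) (· < ·) : T × T → T × T → Prop) =
      Ordinal.type ((· < ·) : (κ ^ 2).ToType → (κ ^ 2).ToType → Prop) := by
    rw [Ordinal.type_prod_lex]
    simp only [T]
    rw [Ordinal.type_toType, Ordinal.type_toType, pow_two]
  obtain ⟨φ0⟩ := Ordinal.type_eq.1 hty
  let φ : Set.Iio (κ ^ 2) ≃ T × T := (Ordinal.ToType.mk (o := κ ^ 2)).toEquiv.trans φ0.symm.toEquiv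
  have hφ : ∀ x y : Set.Iio (κ ^ 2), x < y ↔ Prod.Lex (· < ·) (· < ·) (φ x) (φ y) := by
    intro x y
    have h1 := (Ordinal.ToType.mk (o := κ ^ 2)).lt_iff_lt (x := x) (y := y)
    have h2 := φ0.symm.map_rel_iff (a := Ordinal.ToType.mk (o := κ ^ 2) x)
      (b := Ordinal.ToType.mk (o := κ ^ 2) y)
    exact (h2.trans h1).symm
  have hTT : #(T × T) = aleph 2 := by
    rw [mk_prod]
    simp only [Cardinal.lift_id]
    rw [hT]; exact mul_eq_self (aleph0_le_aleph 2)
  constructor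
  · rintro ⟨G, hG1, hG2, hG3⟩
    refine ⟨T × T, G.comap φ.symm, hTT, ?_, ?_, ?_⟩
    · obtain ⟨c⟩ := hG1
      exact ⟨SimpleGraph.Coloring.mk (fun p => c (φ.symm p)) (fun {p q} h => c.valid h)⟩
    · refine ⟨fun c => hG2.false ?_⟩
      refine SimpleGraph.Coloring.mk (fun x => c (φ x)) ?_
      intro x y h
      refine c.valid ?_
      simpa using h
    · intro X hX
      let S : Set (Set.Iio (κ ^ 2)) := {x | φ x ∈ X}
      let r : X → X → Prop := fun p q => φ.symm p.1 < φ.symm q.1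
      haveI : IsWellOrder X r := by
        refine RelEmbedding.isWellOrder (s := ((· < ·) : Set.Iio (κ ^ 2) → Set.Iio (κ ^ 2) → Prop))
          ⟨⟨fun p => φ.symm p.1, ?_⟩, ?_⟩
        · intro p q h
          exact Subtype.ext (φ.symm.injective h)
        · intro p q
          exact Iff.rfl
      have hS := hG3 S ⟨Ordinal.type r, ?_, fun x => Ordinal.typein r ⟨φ x.1, x.2⟩, ?_, ?_⟩
      · obtain ⟨c⟩ := hS
        refine ⟨SimpleGraph.Coloring.mk (fun p : X => c ⟨φ.symm p.1, ?_⟩) ?_⟩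
        · show φ (φ.symm p.1) ∈ X
          rw [Equiv.apply_symm_apply]
          exact p.2
        · rintro ⟨p, hp⟩ ⟨q, hq⟩ h
          exact c.valid h
      · have h1 : Ordinal.type r < κ := by
          rw [hκ, lt_ord, card_type]
          exact lt2.2 hX
        refine h1.trans_le ?_
        rw [pow_two]
        refine Ordinal.le_mul_left _ ?_
        exact bot_le.trans_lt h1
      · rintro ⟨x, hx⟩ ⟨y, hy⟩ h
        rw [Ordinal.typein_lt_typein]
        show φ.symm (φ x) < φ.symm (φ y)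
        simpa using h
      · intro x
        exact Ordinal.typein_lt_type _ _
  · rintro ⟨V, H, hV, hH1, hH2, hH3⟩
    have hTV : Nonempty (T ≃ V) := by
      rw [← Cardinal.eq, hT, hV]
    obtain ⟨e⟩ := hTV
    let G1 : SimpleGraph T := H.comap e
    let G : SimpleGraph (Set.Iio (κ ^ 2)) :=
      { Adj := fun x y => E G1 (φ x) (φ y) ∨ E G1 (φ y) (φ x)
        symm := ⟨fun x y h => h.symm⟩
        loopless := ⟨fun x h => by
          rcases h with h | h <;> exact lt_irrefl _ h.1⟩ }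
    refine ⟨G, ?_, ?_, ?_⟩
    · obtain ⟨c⟩ := hH1
      refine ⟨SimpleGraph.Coloring.mk (fun x => c (e (φ x).1)) ?_⟩
      rintro x y (h | h)
      · exact c.valid (show H.Adj _ _ from h.2.2.2)
      · exact (c.valid (show H.Adj _ _ from h.2.2.2)).symm
    · refine ⟨fun c => ?_⟩
      have h1 : ∀ d : T → ℕ, ∃ x y, G1.Adj x y ∧ d x = d y := by
        intro d
        by_contra hc
        push Not at hc
        refine hH2.false (SimpleGraph.Coloring.mk (fun v => d (e.symm v)) ?_)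
        intro v w h
        refine hc _ _ ?_
        show H.Adj (e (e.symm v)) (e (e.symm w))
        simpa using h
      obtain ⟨p, q, hpq, he⟩ := no_countable hT hI G1 h1 (fun p => c (φ.symm p))
      refine c.valid (v := φ.symm p) (w := φ.symm q) ?_ he
      left
      rw [Equiv.apply_symm_apply, Equiv.apply_symm_apply]
      exact hpq
    · rintro S ⟨γ, hγ, f, hf1, hf2⟩
      have hsm : ∀ X : Set T, #X ≤ aleph 1 →
          ∃ c : T → ℕ, ∀ x ∈ X, ∀ y ∈ X, G1.Adj x y → c x ≠ c y := by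
        intro X hX
        obtain ⟨c⟩ := hH3 (e '' X) (mk_image_le.trans hX)
        refine ⟨fun x => if h : x ∈ X then c ⟨e x, ⟨x, h, rfl⟩⟩ else 0, ?_⟩
        intro x hx y hy h
        simp only [hx, hy, dif_pos]
        exact c.valid h
      let f' : T × T → Ordinal.{0} := fun p => if h : φ.symm p ∈ S then f ⟨φ.symm p, h⟩ else 0
      have hg1 : ∀ p ∈ {p | φ.symm p ∈ S}, ∀ q ∈ {p | φ.symm p ∈ S},
          (p.1 < q.1 ∨ (p.1 = q.1 ∧ p.2 < q.2)) → f' p < f' q := by
        intro p hp q hq h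
        have hp' : φ.symm p ∈ S := hp
        have hq' : φ.symm q ∈ S := hq
        simp only [f', hp', hq', dif_pos]
        refine hf1 _ _ ?_
        show φ.symm p < φ.symm q
        rw [hφ, Equiv.apply_symm_apply, Equiv.apply_symm_apply, Prod.lex_def]
        exact h
      have hg2 : ∀ p ∈ {p | φ.symm p ∈ S}, f' p < γ := by
        intro p hp
        have hp' : φ.symm p ∈ S := hp
        simp only [f', hp', dif_pos]
        exact hf2 _
      obtain ⟨c, hc⟩ := small_type hT hI G1 hsm {p | φ.symm p ∈ S} f' γ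
        (by rw [← hκ, ← pow_two]; exact hγ) hg1 hg2
      refine ⟨SimpleGraph.Coloring.mk (fun x => c (φ x.1)) ?_⟩
      rintro ⟨x, hx⟩ ⟨y, hy⟩ h
      have hx' : φ x ∈ {p | φ.symm p ∈ S} := by simpa using hx
      have hy' : φ y ∈ {p | φ.symm p ∈ S} := by simpa using hy
      rcases h with h | h
      · exact hc _ hx' _ hy' h
      · exact (hc _ hy' _ hx' h).symm

theorem result :
    (∃ (P : Type) (_ : Preorder P), Nonempty P ∧ ∀ p : P,
      p ∈ Pool.Agent.Helper292.ForceCH.OmegaOnePreserved P ∧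
      p ∈ Pool.Agent.Helper292.ForceCH.CHHolds P) ∧
    (Cardinal.aleph 1 = Cardinal.continuum.{0} → Q1) ∧
    (Q1 ↔ Incompact) := by
  refine ⟨?_, fun h => equivalence.2 (ch_incompact h), equivalence⟩
  obtain ⟨P, i, h1, h2⟩ := Pool.Agent.Helper292.ForceCH.exists_forcing
  exact ⟨P, i, h1, fun p => ⟨(h2 p).1, (h2 p).2.2⟩⟩

end Pool.Agent.Results.MP_d06690_lc.ConsistentlyYes
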